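import Pool.Agent.H68.QC.Targets
import Pool.Agent.H59.NB.BBV
import Pool.Agent.H85.OQ.CH2

/-!
# Level zero of the table lemma for quantum algorithms with decision trees as answers
-/

set_option autoImplicit false

namespace Pool.Agent.H33.QC

open Finset Pool.Agent.H6.NB Pool.Agent.H70.OQ Pool.Agent.H70.RK
open Pool.Agent.H68.QC (T_A0D)

/-- the square root -/
theorem sqrt_lt {T t K M : ℝ} (ht : 0 ≤ t) (hK : 576 * T ^ 2 * t ≤ K) (hM : K < M)
    (hK0 : 0 ≤ K) : 4 * T * √(t / M) < 1 / 6 := by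
  have hM0 : 0 < M := lt_of_le_of_lt hK0 hM
  have h1 : (4 * T * √(t / M)) ^ 2 < (1 / 6) ^ 2 := by
    rw [mul_pow, Real.sq_sqrt (div_nonneg ht hM0.le)]
    rw [mul_div_assoc', div_lt_iff₀ hM0]
    nlinarith
  exact lt_of_pow_lt_pow_left₀ 2 (by norm_num) h1

/-- among more than `K` rows there is one for which the acceptance probability is almost unchanged -/
theorem near {X : Type} [Fintype X] [DecidableEq X] (A : QAlg)
    (tr : List Bool → Pool.Agent.H68.AC.DT X) (t K : ℕ) (T : ℝ) (htr : ∀ w, (tr w).depth ≤ t)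
    (hA : (A.T : ℝ) ≤ T) (hK : 576 * T ^ 2 * t ≤ K) (S : Finset X) (hS : K < S.card) :
    ∃ x ∈ S, |A.prob (fun w => (tr w).eval fun x' => !decide (x' = x)) -
      A.prob (fun w => (tr w).eval fun _ => true)| < 1 / 6 := by
  classical
  have : Nonempty S := by
    obtain ⟨x, hx⟩ := Finset.card_pos.mp (lt_of_le_of_lt (Nat.zero_le K) hS)
    exact ⟨⟨x, hx⟩⟩
  obtain ⟨x, hx⟩ := Pool.Agent.H59.NB.BBV.t_bbv S A (fun w => (tr w).eval fun _ => true)
    (fun x w => (tr w).eval fun x' => !decide (x' = (x : X))) t (by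
      intro i w _
      obtain ⟨Q, hQ, hQe⟩ := Pool.Agent.H85.OQ.dtp X (tr w) (fun _ => true)
      refine le_trans (Finset.card_le_card_of_injOn (fun x : S => (x : X)) (t := Q) ?_ ?_)
        (hQ.trans (htr w))
      · intro x hx
        by_contra hxQ
        simp only [Finset.coe_filter, Finset.mem_univ, true_and, Set.mem_ofPred_eq] at hx
        exact hx (hQe _ fun v hv => by
          have : v ≠ x := by
            rintro rfl
            exact hxQ hv
          simp [this])
      · intro x _ y _ h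
        exact Subtype.ext h)
  refine ⟨x, x.2, lt_of_le_of_lt hx ?_⟩
  rw [Fintype.card_coe]
  have h1 : (K : ℝ) < S.card := by exact_mod_cast hS
  have h2 := sqrt_lt (Nat.cast_nonneg t) hK h1 (Nat.cast_nonneg K)
  refine lt_of_le_of_lt ?_ h2
  gcongr

/-- BS0 -/
theorem pf_BS0 (hA0D : T_A0D) : Pool.Agent.H68.QC.T_BS0 := by
  classical
  intro X Y _ _ _ m t m0 T alg V1 V0 hAdm hT hm0 hF hBad
  obtain ⟨e, he, he1, he0⟩ := hF
  obtain ⟨h1, h0⟩ := hBad
  simp only [if_true] at h0
  choose tr htr htre using fun w => hA0D _ t t (e w) (he w)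
  have hA := (hAdm [] rfl (by simp)).2
  have hP : ∀ y : X → Bool, (fun w => e w y) = fun w => (tr w).eval y := fun y =>
    funext fun w => (htre w y).symm
  have hn : ∀ P : (X → Bool) → Prop, m0 < {x : X | P fun x' => !decide (x' = x)}.ncard →
      m0 < (univ.filter fun x : X => P fun x' => !decide (x' = x)).card := by
    intro P h
    rwa [Set.ncard_eq_toFinset_card', Set.toFinset_ofPred] at h
  obtain ⟨x1, hx1, hd1⟩ := near (X := X) (alg []) tr t m0 T htr hA hm0 _ (hn V1 h1)
  obtain ⟨x0, hx0, hd0⟩ := near (X := X) (alg []) tr t m0 T htr hA hm0 _ (hn V0 h0)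
  have g1 : 2 / 3 ≤ (alg []).prob fun w => (tr w).eval fun x' => !decide (x' = x1) := by
    have := (he1 _).1 (Finset.mem_filter.mp hx1).2
    rw [hP] at this
    exact this
  have g0 : (alg []).prob (fun w => (tr w).eval fun x' => !decide (x' = x0)) ≤ 1 / 3 := by
    have := (he0 _).1 (Finset.mem_filter.mp hx0).2
    rw [hP] at this
    exact this
  have l1 := (abs_lt.mp hd1).2
  have l0 := (abs_lt.mp hd0).1
  linarith

end Pool.Agent.H33.QC
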